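import Pool.Agent.H981R2.Fin9

/-!
# Rooted oriented self-avoiding polygons on `ℤ²` and self-avoiding walks
-/

namespace Pool.Agent.H339R2.Pgn

open Finset

/-- The rooted oriented self-avoiding polygons of perimeter `2n` on `ℤ²`, started at the origin, as
periodic functions `ℕ → ℤ × ℤ`. -/
def SAP (n : ℕ) : Set (ℕ → ℤ × ℤ) :=
  {f : ℕ → ℤ × ℤ | f 0 = (0, 0) ∧ (∀ i, f (i + 2 * n) = f i) ∧
    (∀ i j, i < 2 * n → j < 2 * n → f i = f j → i = j) ∧
    (∀ i, ((f i).1 - (f (i + 1)).1).natAbs + ((f i).2 - (f (i + 1)).2).natAbs = 1)}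

lemma per_mul {n : ℕ} {f : ℕ → ℤ × ℤ} (h : ∀ i, f (i + 2 * n) = f i) (i k : ℕ) :
    f (i + k * (2 * n)) = f i := by
  induction k with
  | zero => simp
  | succ k ih =>
    have : i + (k + 1) * (2 * n) = (i + k * (2 * n)) + 2 * n := by ring
    rw [this, h, ih]

lemma per_mod {n : ℕ} {f : ℕ → ℤ × ℤ} (h : ∀ i, f (i + 2 * n) = f i) (i : ℕ) :
    f (i % (2 * n)) = f i := by
  conv_rhs => rw [← Nat.mod_add_div' i (2 * n)]
  rw [per_mul h]

/-- the periodic functions are the functions on `ℤ/2n` -/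
noncomputable def toLoop (n : ℕ) [NeZero (2 * n)] :
    SAP n ≃ {f : ZMod (2 * n) → ℤ × ℤ // H981.IsLoop (2 * n) f} where
  toFun f := ⟨fun z => f.1 z.val, by
    obtain ⟨f, h0, hp, hi, hs⟩ := f
    refine ⟨?_, ?_, ?_⟩
    · simp [ZMod.val_zero, h0]
    · intro a b hab
      apply ZMod.val_injective
      exact hi _ _ (ZMod.val_lt a) (ZMod.val_lt b) hab
    · intro a
      have h1 : f (a + 1 : ZMod (2 * n)).val = f (a.val + 1) := by
        rw [ZMod.val_add, ← per_mod hp (a.val + 1)]
        congr 1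
        rw [Nat.add_mod, ZMod.val_one_eq_one_mod, Nat.mod_mod, ← Nat.add_mod]
      have h2 := hs a.val
      simp only
      rw [h1]
      rw [← Int.natCast_inj] at h2
      push_cast at h2
      rw [abs_sub_comm, abs_sub_comm (f (a.val + 1)).2]
      exact h2⟩
  invFun g := ⟨fun i => g.1 (i : ZMod (2 * n)), by
    obtain ⟨g, h0, hi, hs⟩ := g
    refine ⟨?_, ?_, ?_, ?_⟩
    · simp only [Nat.cast_zero, h0]; rfl
    · intro i
      simp only
      congr 1
      rw [Nat.cast_add, ZMod.natCast_self, add_zero]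
    · intro i j hi' hj' hij
      have := hi hij
      have h2 := congrArg ZMod.val this
      rwa [ZMod.val_natCast_of_lt hi', ZMod.val_natCast_of_lt hj'] at h2
    · intro i
      have h2 := hs (i : ZMod (2 * n))
      simp only
      rw [← Int.natCast_inj]
      push_cast
      rw [abs_sub_comm, abs_sub_comm (g (i : ZMod (2 * n))).2]
      exact h2⟩
  left_inv f := by
    obtain ⟨f, h0, hp, hi, hs⟩ := f
    apply Subtype.ext
    funext i
    simp only
    rw [ZMod.val_natCast, per_mod hp]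
  right_inv g := by
    obtain ⟨g, hg⟩ := g
    apply Subtype.ext
    funext z
    simp only
    rw [ZMod.natCast_zmod_val]

end Pool.Agent.H339R2.Pgn
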