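import Pool.Agent.H339R2.Pgn.Walk

/-!
# From sub-ballisticity of walks to sub-ballisticity of polygons on `ℤ²`
-/

namespace Pool.Agent.H339R2.Pgn

open Finset Filter Topology

/-- quantitative sub-ballisticity for walks (proved by team SB of helper976) -/
def SBWalk (c : ℝ) : Prop :=
  ∀ ε : ℝ, 0 < ε → ∀ᶠ m : ℕ in atTop,
    (Nat.card {ω : Fin (m + 1) → ℤ × ℤ //
      H981.IsSAW m ω ∧ ∃ k, (m : ℝ) / (Real.log m) ^ c ≤ |(((ω k).1 : ℤ) : ℝ)|} : ℝ) ≤
      Real.exp (-(m : ℝ) ^ (1 - ε)) * (H981.C m : ℝ)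

/-- the number of rooted oriented polygons, from below -/
lemma card_SAP_lower : ∃ K : ℝ, 0 ≤ K ∧ ∀ n : ℕ, 2 ≤ n →
    H981.mu ^ (2 * n) * Real.exp (-(K * Real.log n ^ 9)) ≤ ((SAP n).ncard : ℝ) := by
  obtain ⟨K, hK, h⟩ := H981.PP_bounds9
  refine ⟨K, hK, fun n hn => (h n hn).1.trans ?_⟩
  have : NeZero (2 * n) := ⟨by omega⟩
  have h1 : (SAP n).ncard = Nat.card {f : ZMod (2 * n) → ℤ × ℤ // H981.IsLoop (2 * n) f} := by
    rw [← Nat.card_coe_set_eq]
    exact Nat.card_congr (toLoop n)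
  rw [h1]
  unfold H981.PP
  apply div_le_self (by positivity)
  have : (2 : ℝ) ≤ n := by exact_mod_cast hn
  linarith

lemma rpow_isLittleO {a b : ℝ} (hab : a < b) :
    (fun x : ℝ => x ^ a) =o[atTop] (fun x : ℝ => x ^ b) := by
  rw [Asymptotics.isLittleO_iff_tendsto' (by
    filter_upwards [eventually_gt_atTop (0 : ℝ)] with x hx h
    exact absurd h (by positivity))]
  have h := tendsto_rpow_neg_atTop (sub_pos.2 hab)
  refine h.congr' ?_
  filter_upwards [eventually_gt_atTop (0 : ℝ)] with x hx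
  rw [← Real.rpow_sub hx]
  congr 1
  ring

lemma rpow_log_aux (K L a b : ℝ) (hab : a < b) (hb : 0 < b) :
    ∀ᶠ x : ℝ in atTop, x ^ a + K * Real.log x ^ 9 + L * (Real.log (2 * x)) ^ 9 ≤ x ^ b := by
  have h1 : (fun x : ℝ => x ^ a) =o[atTop] (fun x : ℝ => x ^ b) := rpow_isLittleO hab
  have h2 : (fun x : ℝ => Real.log x ^ 9) =o[atTop] (fun x : ℝ => x ^ b) := by
    have := isLittleO_log_rpow_rpow_atTop (9 : ℝ) hb
    simpa using this
  have h4 : (fun x : ℝ => (Real.log (2 * x)) ^ 9) =O[atTop] (fun x : ℝ => Real.log x ^ 9) := by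
    refine Asymptotics.IsBigO.of_bound (2 ^ 9) ?_
    filter_upwards [eventually_ge_atTop (2 : ℝ)] with x hx
    have h5 : Real.log (2 * x) ≤ 2 * Real.log x := by
      rw [Real.log_mul (by norm_num) (by linarith)]
      have := Real.log_le_log (by norm_num) hx
      linarith
    have h6 : 0 ≤ Real.log (2 * x) := Real.log_nonneg (by linarith)
    have h7 : 0 ≤ Real.log x := Real.log_nonneg (by linarith)
    rw [Real.norm_of_nonneg (by positivity), Real.norm_of_nonneg (by positivity), ← mul_pow]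
    exact pow_le_pow_left₀ h6 h5 9
  have h3 := ((h1.add (h2.const_mul_left K)).add ((h4.trans_isLittleO h2).const_mul_left L)).bound
    (c := 1) one_pos
  filter_upwards [h3, eventually_gt_atTop (0 : ℝ)] with x hx hx0
  rw [one_mul, Real.norm_of_nonneg (by positivity : 0 ≤ x ^ b)] at hx
  exact (le_abs_self _).trans hx

lemma thr_aux {c : ℝ} (hc : 0 < c) : ∀ᶠ n : ℕ in atTop, ∀ m : ℕ, m + 1 = 2 * n →
    2 * ((m : ℝ) / (Real.log m) ^ c) ≤ (n : ℝ) / (Real.log n) ^ (c / 2) := by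
  have h1 : Tendsto (fun n : ℕ => (Real.log n) ^ (c / 2)) atTop atTop :=
    (tendsto_rpow_atTop (by linarith)).comp (Real.tendsto_log_atTop.comp tendsto_natCast_atTop_atTop)
  filter_upwards [h1.eventually_ge_atTop 4, eventually_ge_atTop 3] with n hn hn3 m hm
  have hn' : (3 : ℝ) ≤ n := by exact_mod_cast hn3
  have hmn : (n : ℝ) ≤ m := by exact_mod_cast (by omega : n ≤ m)
  have hm2 : (m : ℝ) ≤ 2 * n := by exact_mod_cast (by omega : m ≤ 2 * n)
  have hlog : 0 < Real.log n := Real.log_pos (by linarith)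
  have hlog2 : Real.log n ≤ Real.log m := Real.log_le_log (by linarith) hmn
  have h2 : (Real.log n) ^ c = (Real.log n) ^ (c / 2) * (Real.log n) ^ (c / 2) := by
    rw [← Real.rpow_add hlog]; congr 1; ring
  have h3 : (Real.log n) ^ c ≤ (Real.log m) ^ c := Real.rpow_le_rpow hlog.le hlog2 hc.le
  have hpos : 0 < (Real.log n) ^ (c / 2) := by positivity
  calc 2 * ((m : ℝ) / (Real.log m) ^ c) ≤ 2 * ((2 * n) / (Real.log n) ^ c) := by
        gcongr
    _ = (n : ℝ) / (Real.log n) ^ (c / 2) * (4 / (Real.log n) ^ (c / 2)) := by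
        rw [h2]; field_simp; ring
    _ ≤ (n : ℝ) / (Real.log n) ^ (c / 2) * 1 := by
        gcongr
        rw [div_le_one hpos]; exact hn
    _ = _ := mul_one _

/-- **wide polygons are rare** -/
theorem tail_of_SB {c : ℝ} (hc : 0 < c) (h : SBWalk c) (ε : ℝ) (hε : 0 < ε) :
    ∀ᶠ n : ℕ in atTop,
      ({f ∈ SAP n | (n : ℝ) / (Real.log n) ^ (c / 2) ≤ (width n f : ℝ)}.ncard : ℝ) ≤
        Real.exp (-(n : ℝ) ^ (1 - ε)) * ((SAP n).ncard : ℝ) := by
  set e : ℝ := min ε (1 / 2) with he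
  have he0 : 0 < e := lt_min hε (by norm_num)
  have he1 : e ≤ 1 / 2 := min_le_right _ _
  have heε : e ≤ ε := min_le_left _ _
  obtain ⟨K, hK, hlow⟩ := card_SAP_lower
  obtain ⟨K', hK', hup⟩ := H981.cr'_upper9
  have h1 := h (e / 2) (by linarith)
  have htend : Tendsto (fun n : ℕ => 2 * n - 1) atTop atTop := by
    refine tendsto_atTop_mono (fun n => ?_) (tendsto_id (α := ℕ))
    change n ≤ 2 * n - 1 + 0
    rcases Nat.eq_zero_or_pos n with rfl | hn
    · simp
    · omega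
  have h2 := htend.eventually h1
  have h3 := tendsto_natCast_atTop_atTop.eventually
    (rpow_log_aux K K' (1 - e) (1 - e / 2) (by linarith) (by linarith))
  filter_upwards [h2, h3, thr_aux hc, eventually_ge_atTop 2] with n hn2 hn3 hn4 hn
  obtain ⟨m, hm⟩ : ∃ m, m + 1 = 2 * n := ⟨2 * n - 1, by omega⟩
  have hm' : 2 * n - 1 = m := by omega
  rw [hm'] at hn2
  have hthr := hn4 m hm
  have hnR : (2 : ℝ) ≤ n := by exact_mod_cast hn
  have hmn : (n : ℝ) ≤ m := by exact_mod_cast (by omega : n ≤ m)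
  have hm2 : (m : ℝ) ≤ 2 * n := by exact_mod_cast (by omega : m ≤ 2 * n)
  have hsub : {f ∈ SAP n | (n : ℝ) / (Real.log n) ^ (c / 2) ≤ (width n f : ℝ)} ⊆
      {f ∈ SAP n | 2 * ((m : ℝ) / (Real.log m) ^ c) ≤ (width n f : ℝ)} :=
    fun f hf => ⟨hf.1, hthr.trans hf.2⟩
  have hfin : {f ∈ SAP n | 2 * ((m : ℝ) / (Real.log m) ^ c) ≤ (width n f : ℝ)}.Finite :=
    (SAP_finite (by omega)).subset (fun f hf => hf.1)
  have h5 : ({f ∈ SAP n | (n : ℝ) / (Real.log n) ^ (c / 2) ≤ (width n f : ℝ)}.ncard : ℝ) ≤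
      (Nat.card {ω : Fin (m + 1) → ℤ × ℤ //
        H981.IsSAW m ω ∧ ∃ k, (m : ℝ) / (Real.log m) ^ c ≤ |(((ω k).1 : ℤ) : ℝ)|} : ℝ) := by
    exact_mod_cast (Set.ncard_le_ncard hsub hfin).trans (card_wide hm _)
  refine (h5.trans hn2).trans ?_
  have h6 : (H981.C m : ℝ) ≤ H981.mu ^ m * Real.exp (K' * Real.log m ^ 9) := by
    rw [← H981.cr'_eq]; exact hup m (by omega)
  have hmu := H981.mu_pos
  have h7 : H981.mu ^ m ≤ H981.mu ^ (2 * n) := pow_le_pow_right₀ H981.one_le_mu (by omega)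
  calc Real.exp (-(m : ℝ) ^ (1 - e / 2)) * (H981.C m : ℝ)
      ≤ Real.exp (-(m : ℝ) ^ (1 - e / 2)) * (H981.mu ^ m * Real.exp (K' * Real.log m ^ 9)) := by
        gcongr
    _ ≤ Real.exp (-(m : ℝ) ^ (1 - e / 2)) *
          (H981.mu ^ (2 * n) * Real.exp (K' * Real.log m ^ 9)) := by
        gcongr
    _ = H981.mu ^ (2 * n) * Real.exp (-(m : ℝ) ^ (1 - e / 2) + K' * Real.log m ^ 9) := by
        rw [Real.exp_add]; ring
    _ ≤ H981.mu ^ (2 * n) * Real.exp (-(n : ℝ) ^ (1 - ε) + -(K * Real.log n ^ 9)) := by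
        gcongr ?_ * Real.exp ?_
        have h8 : (n : ℝ) ^ (1 - e / 2) ≤ (m : ℝ) ^ (1 - e / 2) :=
          Real.rpow_le_rpow (by linarith) hmn (by linarith)
        have h9 : (n : ℝ) ^ (1 - ε) ≤ (n : ℝ) ^ (1 - e) :=
          Real.rpow_le_rpow_of_exponent_le (by linarith) (by linarith)
        have h10 : Real.log m ≤ Real.log (2 * n) := Real.log_le_log (by linarith) hm2
        have h11 : 0 ≤ Real.log m := Real.log_nonneg (by linarith)
        have h12 : K' * Real.log m ^ 9 ≤ K' * Real.log (2 * n) ^ 9 := by gcongr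
        linarith
    _ = Real.exp (-(n : ℝ) ^ (1 - ε)) * (H981.mu ^ (2 * n) * Real.exp (-(K * Real.log n ^ 9))) := by
        rw [Real.exp_add]; ring
    _ ≤ _ := by
        gcongr
        exact hlow n hn

/-- the mean of `g` over the polygons of perimeter `2n` (each polygon, up to translation, is
counted `4n` times: `2n` starting points and two orientations) -/
noncomputable def mean (n : ℕ) (g : (ℕ → ℤ × ℤ) → ℝ) : ℝ :=
  (∑ᶠ f ∈ SAP n, g f) / ((SAP n).ncard : ℝ)

lemma natAbs_le_dist {n : ℕ} {f : ℕ → ℤ × ℤ} (hf : f ∈ SAP n) (i : ℕ) : (f i).1.natAbs ≤ i := by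
  obtain ⟨h0, hp, hi, hs⟩ := hf
  induction i with
  | zero => rw [h0]; simp
  | succ i ih =>
    have := hs i
    omega

lemma width_le {n : ℕ} {f : ℕ → ℤ × ℤ} (hn : 1 ≤ n) (hf : f ∈ SAP n) : width n f ≤ 4 * n := by
  obtain ⟨i, j, hi, hj, hij⟩ := exists_of_width (n := n) (f := f) hn le_rfl
  have h1 := natAbs_le_dist hf i
  have h2 := natAbs_le_dist hf j
  omega

lemma mean_le_of_le {n : ℕ} (hn : 1 ≤ n) {g : (ℕ → ℤ × ℤ) → ℝ} {B : ℝ} (hB : 0 ≤ B)
    (h : ∀ f ∈ SAP n, g f ≤ B) : mean n g ≤ B := by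
  have hfin := SAP_finite hn
  unfold mean
  rw [finsum_mem_eq_finite_toFinset_sum _ hfin, Set.ncard_eq_toFinset_card _ hfin]
  apply div_le_of_le_mul₀ (by positivity) hB
  refine (Finset.sum_le_card_nsmul _ _ B fun f hf => h f (by simpa using hf)).trans ?_
  rw [nsmul_eq_mul, mul_comm]

theorem mean_width_of_SB {c : ℝ} (hc : 0 < c) (h : SBWalk c) :
    ∀ᶠ n : ℕ in atTop, mean n (fun f => (width n f : ℝ)) ≤
      (n : ℝ) / (Real.log n) ^ (c / 4) := by
  have h1 := tail_of_SB hc h (1 / 2) (by norm_num)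
  have h2 : Tendsto (fun n : ℕ => (Real.log n) ^ (c / 4)) atTop atTop :=
    (tendsto_rpow_atTop (by linarith)).comp (Real.tendsto_log_atTop.comp tendsto_natCast_atTop_atTop)
  -- `4 exp(-√n) (log n)^(c/4) ≤ 1/2`
  have h3 : ∀ᶠ n : ℕ in atTop, 4 * Real.exp (-(n : ℝ) ^ ((1 : ℝ) / 2)) * (Real.log n) ^ (c / 4) ≤
      1 / 2 := by
    have h4 : (fun x : ℝ => (Real.log x) ^ (c / 4)) =o[atTop] (fun x : ℝ => x ^ ((1 : ℝ) / 2)) :=
      isLittleO_log_rpow_rpow_atTop _ (by norm_num)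
    have h5 := tendsto_natCast_atTop_atTop.eventually (h4.bound (c := 1) one_pos)
    have h6 : Tendsto (fun x : ℝ => x * Real.exp (-x)) atTop (𝓝 0) := by
      have := Real.tendsto_pow_mul_exp_neg_atTop_nhds_zero 1
      simpa using this
    have h7 : Tendsto (fun n : ℕ => (n : ℝ) ^ ((1 : ℝ) / 2)) atTop atTop :=
      (tendsto_rpow_atTop (by norm_num)).comp tendsto_natCast_atTop_atTop
    have h8 := (h6.comp h7).eventually_le_const (u := 1 / 8) (by norm_num)
    filter_upwards [h5, h8, eventually_ge_atTop 2] with n hn5 hn8 hn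
    have hn' : (2 : ℝ) ≤ n := by exact_mod_cast hn
    have hlog : 0 < Real.log n := Real.log_pos (by linarith)
    rw [one_mul, Real.norm_of_nonneg (by positivity), Real.norm_of_nonneg (by positivity)] at hn5
    simp only [Function.comp] at hn8
    calc 4 * Real.exp (-(n : ℝ) ^ ((1 : ℝ) / 2)) * (Real.log n) ^ (c / 4)
        ≤ 4 * Real.exp (-(n : ℝ) ^ ((1 : ℝ) / 2)) * (n : ℝ) ^ ((1 : ℝ) / 2) := by gcongr
      _ = 4 * ((n : ℝ) ^ ((1 : ℝ) / 2) * Real.exp (-(n : ℝ) ^ ((1 : ℝ) / 2))) := by ring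
      _ ≤ 1 / 2 := by linarith
  filter_upwards [h1, h2.eventually_ge_atTop 2, h3, eventually_ge_atTop 2] with n hn1 hn2 hn3 hn
  have hn' : (2 : ℝ) ≤ n := by exact_mod_cast hn
  have hlog : 0 < Real.log n := Real.log_pos (by linarith)
  have hL : 0 < (Real.log n) ^ (c / 4) := by positivity
  have hhalf : (1 : ℝ) - 1 / 2 = 1 / 2 := by norm_num
  rw [hhalf] at hn1
  have hfin := SAP_finite (n := n) (by omega)
  set D : ℝ := (n : ℝ) / (Real.log n) ^ (c / 2) with hD
  have hD0 : 0 ≤ D := by positivity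
  have hDhalf : D ≤ (n : ℝ) / (Real.log n) ^ (c / 4) * (1 / 2) := by
    have h9 : (Real.log n) ^ (c / 2) = (Real.log n) ^ (c / 4) * (Real.log n) ^ (c / 4) := by
      rw [← Real.rpow_add hlog]; congr 1; ring
    rw [hD, h9, ← div_div, div_eq_mul_inv (_ / _)]
    gcongr
    rw [← one_div]
    exact one_div_le_one_div_of_le (by norm_num) hn2
  unfold mean
  rw [finsum_mem_eq_finite_toFinset_sum _ hfin]
  have hwf : {f ∈ SAP n | D ≤ (width n f : ℝ)}.Finite := hfin.subset (fun f hf => hf.1)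
  have hpt : ∀ f ∈ hfin.toFinset, (width n f : ℝ) ≤
      D + (if D ≤ (width n f : ℝ) then 4 * (n : ℝ) else 0) := by
    intro f hf
    split_ifs with hc'
    · have : (width n f : ℝ) ≤ 4 * n := by
        exact_mod_cast width_le (by omega) (by simpa using hf)
      linarith
    · push Not at hc'
      linarith
  have hsum : ∑ f ∈ hfin.toFinset, (width n f : ℝ) ≤ ((SAP n).ncard : ℝ) * D +
      4 * n * ({f ∈ SAP n | D ≤ (width n f : ℝ)}.ncard : ℝ) := by
    refine (Finset.sum_le_sum hpt).trans ?_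
    rw [Finset.sum_add_distrib, Finset.sum_const, nsmul_eq_mul,
      ← Set.ncard_eq_toFinset_card _ hfin, ← Finset.sum_filter, Finset.sum_const, nsmul_eq_mul]
    have hcard : (hfin.toFinset.filter (fun f => D ≤ (width n f : ℝ))).card =
        {f ∈ SAP n | D ≤ (width n f : ℝ)}.ncard := by
      rw [Set.ncard_eq_toFinset_card _ hwf]
      congr 1
      ext f
      simp
    rw [hcard]
    linarith
  rcases eq_or_lt_of_le (Nat.cast_nonneg (α := ℝ) (SAP n).ncard) with h0 | h0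
  · rw [← h0, div_zero]; positivity
  rw [div_le_iff₀ h0]
  refine hsum.trans ?_
  have h10 : 4 * (n : ℝ) * ({f ∈ SAP n | D ≤ (width n f : ℝ)}.ncard : ℝ) ≤
      (n : ℝ) / (Real.log n) ^ (c / 4) * (1 / 2) * ((SAP n).ncard : ℝ) := by
    calc 4 * (n : ℝ) * ({f ∈ SAP n | D ≤ (width n f : ℝ)}.ncard : ℝ)
        ≤ 4 * (n : ℝ) * (Real.exp (-(n : ℝ) ^ ((1 : ℝ) / 2)) * ((SAP n).ncard : ℝ)) := by gcongr
      _ = (n : ℝ) / (Real.log n) ^ (c / 4) *
          (4 * Real.exp (-(n : ℝ) ^ ((1 : ℝ) / 2)) * (Real.log n) ^ (c / 4)) *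
            ((SAP n).ncard : ℝ) := by
          field_simp
      _ ≤ _ := by gcongr
  nlinarith [mul_le_mul_of_nonneg_right hDhalf h0.le]

theorem mean_area_of_SB {c : ℝ} (hc : 0 < c) (h : SBWalk c) :
    ∀ᶠ n : ℕ in atTop, mean n (area n) ≤ (n : ℝ) ^ 2 / (Real.log n) ^ (c / 8) := by
  have h2 : Tendsto (fun n : ℕ => (Real.log n) ^ (c / 8)) atTop atTop :=
    (tendsto_rpow_atTop (by linarith)).comp (Real.tendsto_log_atTop.comp tendsto_natCast_atTop_atTop)
  filter_upwards [mean_width_of_SB hc h, h2.eventually_ge_atTop 2, eventually_ge_atTop 2]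
    with n hn1 hn2 hn
  have hn' : (2 : ℝ) ≤ n := by exact_mod_cast hn
  have hlog : 0 < Real.log n := Real.log_pos (by linarith)
  have hfin := SAP_finite (n := n) (by omega)
  have h3 : mean n (area n) ≤ 2 * n * mean n (fun f => (width n f : ℝ)) := by
    unfold mean
    rw [finsum_mem_eq_finite_toFinset_sum _ hfin, finsum_mem_eq_finite_toFinset_sum _ hfin,
      ← mul_div_assoc]
    gcongr
    rw [Finset.mul_sum]
    exact Finset.sum_le_sum fun f hf => area_le (by omega) (by simpa using hf)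
  refine h3.trans ?_
  have h4 : (Real.log n) ^ (c / 4) = (Real.log n) ^ (c / 8) * (Real.log n) ^ (c / 8) := by
    rw [← Real.rpow_add hlog]; congr 1; ring
  have hL : 0 < (Real.log n) ^ (c / 8) := by positivity
  calc 2 * n * mean n (fun f => (width n f : ℝ)) ≤ 2 * n * ((n : ℝ) / (Real.log n) ^ (c / 4)) := by
        gcongr
    _ = (n : ℝ) ^ 2 / (Real.log n) ^ (c / 8) * (2 / (Real.log n) ^ (c / 8)) := by
        rw [h4]; field_simp
    _ ≤ (n : ℝ) ^ 2 / (Real.log n) ^ (c / 8) * 1 := by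
        gcongr
        rw [div_le_one hL]; exact hn2
    _ = _ := mul_one _

end Pool.Agent.H339R2.Pgn
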