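import Pool.Agent.H339R2.Pgn.Basic

/-!
# Wide polygons, and the area of a polygon
-/

namespace Pool.Agent.H339R2.Pgn

open Finset Filter Topology

/-- the width (horizontal extent) of a polygon of perimeter `2n` -/
def width (n : ℕ) (f : ℕ → ℤ × ℤ) : ℕ :=
  ((Finset.range (2 * n)) ×ˢ (Finset.range (2 * n))).sup
    (fun p : ℕ × ℕ => ((f p.1).1 - (f p.2).1).natAbs)

/-- the area of a polygon of perimeter `2n`, by the shoelace formula -/
noncomputable def area (n : ℕ) (f : ℕ → ℤ × ℤ) : ℝ :=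
  ((|∑ k ∈ Finset.range (2 * n), ((f k).1 * (f (k + 1)).2 - (f (k + 1)).1 * (f k).2)| : ℤ) : ℝ) / 2

lemma saw_finite (m : ℕ) : Finite {ω : Fin (m + 1) → ℤ × ℤ // H981.IsSAW m ω} := by
  apply Nat.finite_of_card_ne_zero
  have h1 := H981.one_le_cr' m
  rw [H981.cr'_eq] at h1
  have h2 : 1 ≤ H981.C m := by exact_mod_cast h1
  unfold H981.C at h2
  omega

/-- the walk of a polygon (the last edge is forgotten) -/
def toWalk (m : ℕ) (f : ℕ → ℤ × ℤ) : Fin (m + 1) → ℤ × ℤ := fun i => f i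

lemma isSAW_toWalk {n m : ℕ} (hm : m + 1 = 2 * n) {f : ℕ → ℤ × ℤ} (hf : f ∈ SAP n) :
    H981.IsSAW m (toWalk m f) := by
  obtain ⟨h0, hp, hi, hs⟩ := hf
  refine ⟨h0, ?_, ?_⟩
  · intro i
    have h2 := hs i
    rw [← Int.natCast_inj] at h2
    push_cast at h2
    rw [abs_sub_comm, abs_sub_comm ((toWalk m f i.succ)).2]
    simpa [toWalk] using h2
  · intro i j hij
    exact Fin.ext (hi _ _ (by omega) (by omega) hij)

lemma toWalk_inj {n m : ℕ} (hm : m + 1 = 2 * n) {f g : ℕ → ℤ × ℤ} (hf : f ∈ SAP n)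
    (hg : g ∈ SAP n) (h : toWalk m f = toWalk m g) : f = g := by
  funext i
  rw [← per_mod hf.2.1 i, ← per_mod hg.2.1 i]
  have hlt : i % (2 * n) < m + 1 := by
    rw [hm]; exact Nat.mod_lt _ (by omega)
  exact congrFun h ⟨i % (2 * n), hlt⟩

lemma SAP_finite {n : ℕ} (hn : 1 ≤ n) : (SAP n).Finite := by
  obtain ⟨m, hm⟩ : ∃ m, m + 1 = 2 * n := ⟨2 * n - 1, by omega⟩
  have := saw_finite m
  rw [← Set.finite_coe_iff]
  refine Finite.of_injective
    (fun f : SAP n => (⟨toWalk m f.1, isSAW_toWalk hm f.2⟩ :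
      {ω : Fin (m + 1) → ℤ × ℤ // H981.IsSAW m ω})) ?_
  intro f g h
  exact Subtype.ext (toWalk_inj hm f.2 g.2 (congrArg Subtype.val h))

lemma exists_of_width {n D : ℕ} {f : ℕ → ℤ × ℤ} (hn : 1 ≤ n) (h : D ≤ width n f) :
    ∃ i j, i < 2 * n ∧ j < 2 * n ∧ D ≤ ((f i).1 - (f j).1).natAbs := by
  have hne : ((Finset.range (2 * n)) ×ˢ (Finset.range (2 * n))).Nonempty :=
    ⟨(0, 0), by simp; omega⟩
  obtain ⟨p, hp, hpe⟩ := Finset.exists_mem_eq_sup _ hne
    (fun p : ℕ × ℕ => ((f p.1).1 - (f p.2).1).natAbs)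
  rw [Finset.mem_product, Finset.mem_range, Finset.mem_range] at hp
  refine ⟨p.1, p.2, hp.1, hp.2, ?_⟩
  unfold width at h
  rw [hpe] at h
  exact h

lemma le_width {n : ℕ} {f : ℕ → ℤ × ℤ} {i j : ℕ} (hi : i < 2 * n) (hj : j < 2 * n) :
    ((f i).1 - (f j).1).natAbs ≤ width n f := by
  unfold width
  exact Finset.le_sup (f := fun p : ℕ × ℕ => ((f p.1).1 - (f p.2).1).natAbs) (b := (i, j))
    (by simp [hi, hj])

/-- wide polygons inject into long walks -/
lemma card_wide {n m : ℕ} (hm : m + 1 = 2 * n) (D : ℝ) :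
    {f ∈ SAP n | 2 * D ≤ (width n f : ℝ)}.ncard ≤
      Nat.card {ω : Fin (m + 1) → ℤ × ℤ // H981.IsSAW m ω ∧ ∃ k, D ≤ |(((ω k).1 : ℤ) : ℝ)|} := by
  have hfin := saw_finite m
  have : Finite {ω : Fin (m + 1) → ℤ × ℤ // H981.IsSAW m ω ∧ ∃ k, D ≤ |(((ω k).1 : ℤ) : ℝ)|} :=
    Finite.of_injective (fun ω => (⟨ω.1, ω.2.1⟩ : {ω : Fin (m + 1) → ℤ × ℤ // H981.IsSAW m ω}))
      (fun a b h => Subtype.ext (congrArg
        (fun x : {ω : Fin (m + 1) → ℤ × ℤ // H981.IsSAW m ω} => x.1) h))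
  rw [← Nat.card_coe_set_eq]
  refine Nat.card_le_card_of_injective
    (fun f : {f ∈ SAP n | 2 * D ≤ (width n f : ℝ)} =>
      (⟨toWalk m f.1, isSAW_toWalk hm f.2.1, ?_⟩ :
        {ω : Fin (m + 1) → ℤ × ℤ // H981.IsSAW m ω ∧ ∃ k, D ≤ |(((ω k).1 : ℤ) : ℝ)|})) ?_
  · obtain ⟨f, hf, hw⟩ := f
    obtain ⟨i, j, hi, hj, hij⟩ := exists_of_width (n := n) (f := f) (by omega) le_rfl
    have h1 : (width n f : ℝ) ≤ |(((f i).1 : ℤ) : ℝ) - (((f j).1 : ℤ) : ℝ)| := by
      have h2 : ((width n f : ℕ) : ℝ) ≤ ((((f i).1 - (f j).1).natAbs : ℕ) : ℝ) := by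
        exact_mod_cast hij
      rw [Nat.cast_natAbs] at h2
      push_cast at h2
      exact h2
    have h2 : |(((f i).1 : ℤ) : ℝ) - (((f j).1 : ℤ) : ℝ)| ≤
        |(((f i).1 : ℤ) : ℝ)| + |(((f j).1 : ℤ) : ℝ)| := abs_sub _ _
    by_cases h3 : D ≤ |(((f i).1 : ℤ) : ℝ)|
    · exact ⟨⟨i, by omega⟩, h3⟩
    · refine ⟨⟨j, by omega⟩, ?_⟩
      change D ≤ |(((f j).1 : ℤ) : ℝ)|
      have : 2 * D ≤ (width n f : ℝ) := hw
      push Not at h3
      linarith
  · intro f g h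
    exact Subtype.ext (toWalk_inj hm f.2.1 g.2.1 (congrArg Subtype.val h))

/-- the area is at most the perimeter times the width -/
lemma area_le {n : ℕ} {f : ℕ → ℤ × ℤ} (hn : 1 ≤ n) (hf : f ∈ SAP n) :
    area n f ≤ 2 * n * width n f := by
  obtain ⟨h0, hp, hi, hs⟩ := hf
  have hend : f (2 * n) = (0, 0) := by
    have := hp 0
    rw [zero_add] at this
    rw [this, h0]
  -- the two one-forms
  have key : ∑ k ∈ Finset.range (2 * n), ((f k).1 * (f (k + 1)).2 - (f (k + 1)).1 * (f k).2) =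
      2 * ∑ k ∈ Finset.range (2 * n), (f k).1 * ((f (k + 1)).2 - (f k).2) := by
    have htel : ∑ k ∈ Finset.range (2 * n),
        ((f (k + 1)).1 * (f (k + 1)).2 - (f k).1 * (f k).2) = 0 := by
      rw [Finset.sum_range_sub (fun k => (f k).1 * (f k).2)]
      rw [hend, h0]; simp
    have hz : ∀ k, ((f k).1 - (f (k + 1)).1) * ((f k).2 - (f (k + 1)).2) = 0 := by
      intro k
      have h1 := hs k
      rcases Nat.eq_zero_or_pos ((f k).1 - (f (k + 1)).1).natAbs with h2 | h2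
      · rw [Int.natAbs_eq_zero] at h2
        rw [h2, zero_mul]
      · have h3 : ((f k).2 - (f (k + 1)).2).natAbs = 0 := by omega
        rw [Int.natAbs_eq_zero] at h3
        rw [h3, mul_zero]
    have h2 : ∑ k ∈ Finset.range (2 * n), ((f k).1 * (f (k + 1)).2 - (f (k + 1)).1 * (f k).2) =
        ∑ k ∈ Finset.range (2 * n), (2 * ((f k).1 * ((f (k + 1)).2 - (f k).2)) -
          ((f (k + 1)).1 * (f (k + 1)).2 - (f k).1 * (f k).2)) := by
      apply Finset.sum_congr rfl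
      intro k _
      have := hz k
      linear_combination this
    rw [h2, Finset.sum_sub_distrib, htel, sub_zero, Finset.mul_sum]
  have hb : |∑ k ∈ Finset.range (2 * n), (f k).1 * ((f (k + 1)).2 - (f k).2)| ≤
      2 * n * width n f := by
    refine (Finset.abs_sum_le_sum_abs _ _).trans ?_
    have h1 : ∀ k ∈ Finset.range (2 * n), |(f k).1 * ((f (k + 1)).2 - (f k).2)| ≤
        (width n f : ℤ) := by
      intro k hk
      rw [Finset.mem_range] at hk
      rw [abs_mul]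
      have h2 : |(f k).1| ≤ (width n f : ℤ) := by
        have := le_width (n := n) (f := f) (i := k) (j := 0) hk (by omega)
        rw [h0] at this
        simp only [sub_zero] at this
        zify at this
        exact this
      have h3 : |(f (k + 1)).2 - (f k).2| ≤ 1 := by
        have h4 := hs k
        rw [abs_sub_comm, Int.abs_eq_natAbs]
        omega
      calc |(f k).1| * |(f (k + 1)).2 - (f k).2| ≤ (width n f : ℤ) * 1 :=
            mul_le_mul h2 h3 (abs_nonneg _) (by positivity)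
        _ = _ := mul_one _
    refine (Finset.sum_le_card_nsmul _ _ _ h1).trans ?_
    rw [Finset.card_range, nsmul_eq_mul]
    push_cast
    exact le_rfl
  unfold area
  rw [key, abs_mul]
  have h5 : (((|∑ k ∈ Finset.range (2 * n), (f k).1 * ((f (k + 1)).2 - (f k).2)| : ℤ)) : ℝ) ≤
      2 * n * width n f := by
    exact_mod_cast hb
  push_cast at h5 ⊢
  rw [abs_two]
  linarith

end Pool.Agent.H339R2.Pgn
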